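import Mathlib

set_option autoImplicit false
open scoped ComplexOrder

namespace Pool.Agent.Results.MP_4640da_an.NonvanishingExtreme

/-- Positive definite functions on the free group of rank `r`. -/
def PosDefFn {r : ℕ} (φ : FreeGroup (Fin r) → ℂ) : Prop :=
  ∀ (n : ℕ) (g : Fin n → FreeGroup (Fin r)) (c : Fin n → ℂ),
    0 ≤ ∑ i, ∑ j, c i * (starRingEnd ℂ) (c j) * φ ((g j)⁻¹ * g i)

/-- The convex set of normalized positive definite functions invariant under all automorphisms of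
the free group of rank `r`. -/
def InvP (r : ℕ) : Set (FreeGroup (Fin r) → ℂ) :=
  {φ | PosDefFn φ ∧ φ 1 = 1 ∧ ∀ (α : FreeGroup (Fin r) ≃* FreeGroup (Fin r)) (g), φ (α g) = φ g}

/-! ### General facts on positive definite functions -/

section gen
variable {r : ℕ} {φ : FreeGroup (Fin r) → ℂ}

theorem pd_two (hφ : PosDefFn φ) (h1 : φ 1 = 1) (g : FreeGroup (Fin r)) (c : ℂ) :
    0 ≤ c * (starRingEnd ℂ) c + 1 + c * φ g + (starRingEnd ℂ) c * φ g⁻¹ := by
  have h := hφ 2 ![g, 1] ![c, 1]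
  simp [Fin.sum_univ_two, h1] at h
  convert h using 1
  ring

theorem pd_herm (hφ : PosDefFn φ) (h1 : φ 1 = 1) (g : FreeGroup (Fin r)) :
    φ g⁻¹ = (starRingEnd ℂ) (φ g) := by
  have e1 := (Complex.nonneg_iff.mp (pd_two hφ h1 g 1)).2
  have e2 := (Complex.nonneg_iff.mp (pd_two hφ h1 g Complex.I)).2
  simp at e1 e2
  apply Complex.ext
  · simp; linarith
  · simp; linarith

theorem pd_norm_le (hφ : PosDefFn φ) (h1 : φ 1 = 1) (g : FreeGroup (Fin r)) : ‖φ g‖ ≤ 1 := by
  have h := pd_two hφ h1 g (-(starRingEnd ℂ) (φ g))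
  rw [pd_herm hφ h1] at h
  have h2 : (-(starRingEnd ℂ) (φ g)) * (starRingEnd ℂ) (-(starRingEnd ℂ) (φ g)) + 1
      + (-(starRingEnd ℂ) (φ g)) * φ g
      + (starRingEnd ℂ) (-(starRingEnd ℂ) (φ g)) * (starRingEnd ℂ) (φ g)
      = ((1 - ‖φ g‖ ^ 2 : ℝ) : ℂ) := by
    have h3 : (starRingEnd ℂ) (φ g) * φ g = ((‖φ g‖ ^ 2 : ℝ) : ℂ) := by
      rw [mul_comm, Complex.mul_conj']; push_cast; ring
    simp only [map_neg, Complex.conj_conj]
    push_cast at h3 ⊢
    linear_combination (-1 : ℂ) * h3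
  rw [h2] at h
  have h4 : 0 ≤ 1 - ‖φ g‖ ^ 2 := by exact_mod_cast h
  nlinarith [norm_nonneg (φ g)]

theorem pd_mul (hφ : PosDefFn φ) (h1 : φ 1 = 1) (g n : FreeGroup (Fin r)) (hn : φ n = 1) :
    φ (g * n) = φ g := by
  have hn' : φ n⁻¹ = 1 := by rw [pd_herm hφ h1, hn]; simp
  set d : ℂ := φ (g * n) - φ g with hd
  have h := hφ 3 ![g * n, g, 1] ![1, -1, -d]
  have e1 : φ (g * n)⁻¹ = (starRingEnd ℂ) (φ (g * n)) := pd_herm hφ h1 _
  have e2 : φ g⁻¹ = (starRingEnd ℂ) (φ g) := pd_herm hφ h1 _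
  have e3 : φ (n⁻¹ * g⁻¹) = (starRingEnd ℂ) (φ (g * n)) := by rw [← e1, mul_inv_rev]
  simp [Fin.sum_univ_three, h1, hn, hn', e2, e3] at h
  have h2 : ((-(‖d‖ ^ 2) : ℝ) : ℂ) = -(d * (starRingEnd ℂ) d) := by
    rw [Complex.mul_conj']; push_cast; ring
  have h3 : 0 ≤ ((-(‖d‖ ^ 2) : ℝ) : ℂ) := by
    rw [h2]
    convert h using 1
    have hdc : (starRingEnd ℂ) d = (starRingEnd ℂ) (φ (g * n)) - (starRingEnd ℂ) (φ g) := by
      rw [hd, map_sub]
    linear_combination (-(starRingEnd ℂ) d) * hd - d * hdc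
  have h4 : 0 ≤ -(‖d‖ ^ 2) := by exact_mod_cast h3
  have h5 : ‖d‖ = 0 := by nlinarith [norm_nonneg d]
  have h6 := norm_eq_zero.mp h5
  rw [hd] at h6
  exact sub_eq_zero.mp h6

/-- averaging over finitely many points -/
theorem pd_sum {V : Type} [Fintype V] (hφ : PosDefFn φ) (g : V → FreeGroup (Fin r)) :
    0 ≤ ∑ v, ∑ w, φ ((g w)⁻¹ * g v) := by
  classical
  let e := (Fintype.equivFin V).symm
  have h := hφ (Fintype.card V) (fun i => g (e i)) (fun _ => 1)
  simp only [map_one, one_mul, mul_one] at h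
  convert h using 1
  rw [← Equiv.sum_comp e]
  refine Finset.sum_congr rfl (fun i _ => ?_)
  rw [← Equiv.sum_comp e]

end gen

/-! ### The quotient by squares and commutators -/

section quot
variable {r : ℕ}

/-- the map to `𝔽₂^r` -/
def ab : FreeGroup (Fin r) →* Multiplicative (Fin r → ZMod 2) :=
  FreeGroup.lift (fun i => Multiplicative.ofAdd (Pi.single i 1))

/-- the class of an element in `𝔽₂^r` -/
def cl (g : FreeGroup (Fin r)) : Fin r → ZMod 2 := Multiplicative.toAdd (ab g)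

theorem cl_one : cl (1 : FreeGroup (Fin r)) = 0 := by simp [cl]
theorem cl_mul (g h : FreeGroup (Fin r)) : cl (g * h) = cl g + cl h := by simp [cl]
theorem cl_inv (g : FreeGroup (Fin r)) : cl g⁻¹ = - cl g := by simp [cl]
theorem cl_of (i : Fin r) : cl (FreeGroup.of i) = Pi.single i 1 := by simp [cl, ab]

theorem cl_aut (α : FreeGroup (Fin r) ≃* FreeGroup (Fin r)) (g : FreeGroup (Fin r)) :
    cl (α g) = ∑ k, cl g k • cl (α (FreeGroup.of k)) := by
  induction g using FreeGroup.induction_on with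
  | C1 => simp [cl_one]
  | of i =>
    rw [cl_of, Finset.sum_eq_single i]
    · simp
    · intro k _ hk
      rw [Pi.single_eq_of_ne hk, zero_smul]
    · intro h
      exact absurd (Finset.mem_univ _) h
  | inv_of i ih =>
    rw [map_inv, cl_inv, ih, cl_inv, ← Finset.sum_neg_distrib]
    refine Finset.sum_congr rfl (fun k _ => ?_)
    rw [Pi.neg_apply, neg_smul]
  | mul x y hx hy =>
    rw [map_mul, cl_mul, hx, hy, cl_mul, ← Finset.sum_add_distrib]
    refine Finset.sum_congr rfl (fun k _ => ?_)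
    rw [Pi.add_apply, add_smul]

theorem cl_aut_eq_zero (α : FreeGroup (Fin r) ≃* FreeGroup (Fin r)) (g : FreeGroup (Fin r)) :
    cl (α g) = 0 ↔ cl g = 0 := by
  constructor
  · intro h
    have h2 := cl_aut α.symm (α g)
    rw [h] at h2
    simpa using h2
  · intro h
    rw [cl_aut, h]
    simp

/-- the transvection `x_j ↦ x_j h`, other generators fixed -/
def tv (j : Fin r) (h : FreeGroup (Fin r)) : FreeGroup (Fin r) →* FreeGroup (Fin r) :=
  FreeGroup.lift (fun i => if i = j then FreeGroup.of j * h else FreeGroup.of i)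

/-- product of generators over a finite set -/
noncomputable def pr (S : Finset (Fin r)) : FreeGroup (Fin r) := (S.toList.map FreeGroup.of).prod

theorem tv_pr (j : Fin r) (h : FreeGroup (Fin r)) (S : Finset (Fin r)) (hS : j ∉ S) :
    tv j h (pr S) = pr S := by
  unfold pr
  rw [map_list_prod, List.map_map]
  congr 1
  refine List.map_congr_left (fun i hi => ?_)
  have : i ≠ j := by
    rintro rfl
    exact hS (Finset.mem_toList.mp hi)
  simp [tv, this]

theorem tv_comp (j : Fin r) (h h' : FreeGroup (Fin r)) (hh : h * h' = 1)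
    (h1 : tv j h' h = h) : (tv j h').comp (tv j h) = MonoidHom.id _ := by
  ext i
  by_cases hi : i = j
  · subst hi
    simp only [MonoidHom.comp_apply, MonoidHom.id_apply]
    have e1 : tv i h (FreeGroup.of i) = FreeGroup.of i * h := by simp [tv]
    have e2 : tv i h' (FreeGroup.of i) = FreeGroup.of i * h' := by simp [tv]
    rw [e1, map_mul, e2, h1, mul_assoc]
    have : h' * h = 1 := by
      rw [mul_eq_one_iff_eq_inv] at hh ⊢
      rw [hh, inv_inv]
    rw [this, mul_one]
  · simp [tv, hi]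

/-- the transvection as an automorphism -/
noncomputable def tva (j : Fin r) (S : Finset (Fin r)) (hS : j ∉ S) :
    FreeGroup (Fin r) ≃* FreeGroup (Fin r) :=
  MonoidHom.toMulEquiv (tv j (pr S)) (tv j (pr S)⁻¹)
    (tv_comp j _ _ (mul_inv_cancel _) (tv_pr j _ S hS))
    (tv_comp j _ _ (inv_mul_cancel _) (by rw [map_inv, tv_pr j _ S hS]))

theorem cl_list (l : List (Fin r)) :
    cl ((l.map FreeGroup.of).prod) = (l.map (fun i => (Pi.single i 1 : Fin r → ZMod 2))).sum := by
  induction l with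
  | nil => simp [cl_one]
  | cons a l ih => rw [List.map_cons, List.prod_cons, cl_mul, ih, cl_of, List.map_cons, List.sum_cons]

theorem cl_pr (S : Finset (Fin r)) (k : Fin r) : cl (pr S) k = if k ∈ S then 1 else 0 := by
  have h : cl (pr S) = ∑ i ∈ S, Pi.single i 1 := by
    unfold pr
    rw [cl_list, Finset.sum_map_toList]
  rw [h, Finset.sum_apply]
  simp [Pi.single_apply]

/-- every class off the kernel is reached from a generator by an automorphism -/
theorem exists_aut (g : FreeGroup (Fin r)) (hg : cl g ≠ 0) (i₀ : Fin r) :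
    ∃ α : FreeGroup (Fin r) ≃* FreeGroup (Fin r), cl (α (FreeGroup.of i₀)) = cl g := by
  obtain ⟨j, hj⟩ := Function.ne_iff.mp hg
  have h2 : ∀ x : ZMod 2, x ≠ 0 → x = 1 := by decide
  have hj1 : cl g j = 1 := h2 _ hj
  set S : Finset (Fin r) := (Finset.univ.filter (fun i => cl g i = 1)).erase j with hS
  have hjS : j ∉ S := Finset.notMem_erase _ _
  refine ⟨(FreeGroup.freeGroupCongr (Equiv.swap i₀ j)).trans (tva j S hjS), ?_⟩
  have e1 : ((FreeGroup.freeGroupCongr (Equiv.swap i₀ j)).trans (tva j S hjS)) (FreeGroup.of i₀)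
      = tv j (pr S) (FreeGroup.of j) := by
    rw [MulEquiv.trans_apply]
    have : (FreeGroup.freeGroupCongr (Equiv.swap i₀ j)) (FreeGroup.of i₀) = FreeGroup.of j := by
      simp
    rw [this]
    rfl
  rw [e1]
  have e2 : tv j (pr S) (FreeGroup.of j) = FreeGroup.of j * pr S := by simp [tv]
  rw [e2, cl_mul, cl_of]
  ext k
  rw [Pi.add_apply, cl_pr]
  by_cases hk : k = j
  · subst hk
    rw [if_neg hjS, Pi.single_eq_same, hj1, add_zero]
  · rw [Pi.single_eq_of_ne hk, zero_add]
    by_cases hk1 : cl g k = 1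
    · rw [if_pos, hk1]
      rw [hS]
      simp [hk, hk1]
    · rw [if_neg]
      · by_contra hne
        exact hk1 (h2 _ (Ne.symm hne))
      · rw [hS]
        simp [hk1]

/-- a section of the class map -/
theorem exists_lift (v : Fin r → ZMod 2) : ∃ g : FreeGroup (Fin r), cl g = v := by
  refine ⟨pr (Finset.univ.filter (fun i => v i = 1)), ?_⟩
  have h2 : ∀ x : ZMod 2, x ≠ 1 → x = 0 := by decide
  ext k
  rw [cl_pr]
  by_cases hk : v k = 1
  · simp [hk]
  · rw [h2 _ hk]
    simp [h2 _ hk]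

/-- the extreme point -/
noncomputable def tau (r : ℕ) (g : FreeGroup (Fin r)) : ℂ :=
  if cl g = 0 then 1 else -(1 / ((2 : ℂ) ^ r - 1))

theorem two_pow_sub (hr : 0 < r) : (0 : ℝ) < (2 : ℝ) ^ r - 1 := by
  have : (1 : ℝ) < 2 ^ r := one_lt_pow₀ (by norm_num) hr.ne'
  linarith

theorem tau_pd (hr : 0 < r) : PosDefFn (tau r) := by
  intro n g c
  have hr' := two_pow_sub hr
  have hne : ((2 : ℂ) ^ r - 1) ≠ 0 := by
    have : (((2 : ℝ) ^ r - 1 : ℝ) : ℂ) ≠ 0 := by exact_mod_cast hr'.ne'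
    push_cast at this
    exact this
  set ε : ℝ := 1 / ((2 : ℝ) ^ r - 1) with hε
  have hε0 : 0 < ε := by positivity
  -- class sums
  set C : (Fin r → ZMod 2) → ℂ := fun v => ∑ i, if cl (g i) = v then c i else 0 with hC
  have htau : ∀ i j, tau r ((g j)⁻¹ * g i)
      = (1 + (ε : ℂ)) * (∑ v, (if cl (g i) = v then 1 else 0) * (if cl (g j) = v then 1 else 0)) - ε := by
    intro i j
    have e : (∑ v : Fin r → ZMod 2, (if cl (g i) = v then (1 : ℂ) else 0) *
        (if cl (g j) = v then 1 else 0)) = if cl (g i) = cl (g j) then 1 else 0 := by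
      rw [Finset.sum_eq_single (cl (g i))]
      · simp [eq_comm]
      · intro v _ hv
        rw [if_neg (Ne.symm hv), zero_mul]
      · intro h
        exact absurd (Finset.mem_univ _) h
    rw [e]
    unfold tau
    have hcl : cl ((g j)⁻¹ * g i) = 0 ↔ cl (g i) = cl (g j) := by
      rw [cl_mul, cl_inv, neg_add_eq_zero, eq_comm]
    by_cases h : cl (g i) = cl (g j)
    · rw [if_pos (hcl.mpr h), if_pos h]
      ring
    · rw [if_neg (fun h' => h (hcl.mp h')), if_neg h, hε]
      push_cast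
      ring
  have hmain : ∑ i, ∑ j, c i * (starRingEnd ℂ) (c j) * tau r ((g j)⁻¹ * g i)
      = (((1 + ε) * ∑ v, ‖C v‖ ^ 2 - ε * ‖∑ v, C v‖ ^ 2 : ℝ) : ℂ) := by
    have hsumC : ∑ v, C v = ∑ i, c i := by
      rw [hC]
      rw [Finset.sum_comm]
      refine Finset.sum_congr rfl (fun i _ => ?_)
      rw [Finset.sum_ite_eq]
      simp
    push_cast
    rw [hsumC]
    simp only [← Complex.mul_conj']
    have h1 : ∀ v, C v * (starRingEnd ℂ) (C v) = ∑ i, ∑ j, c i * (starRingEnd ℂ) (c j) *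
        ((if cl (g i) = v then 1 else 0) * (if cl (g j) = v then 1 else 0)) := by
      intro v
      rw [hC]
      simp only [map_sum]
      rw [Finset.sum_mul_sum]
      refine Finset.sum_congr rfl (fun i _ => Finset.sum_congr rfl (fun j _ => ?_))
      split_ifs <;> simp
    have hsw : ∑ v, C v * (starRingEnd ℂ) (C v) = ∑ i, ∑ j, c i * (starRingEnd ℂ) (c j) *
        ∑ v, ((if cl (g i) = v then 1 else 0) * (if cl (g j) = v then 1 else 0)) := by
      simp only [h1]
      rw [Finset.sum_comm]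
      refine Finset.sum_congr rfl (fun i _ => ?_)
      rw [Finset.sum_comm]
      refine Finset.sum_congr rfl (fun j _ => ?_)
      rw [Finset.mul_sum]
    rw [hsw, map_sum, Finset.sum_mul_sum, Finset.mul_sum, Finset.mul_sum,
      ← Finset.sum_sub_distrib]
    refine Finset.sum_congr rfl (fun i _ => ?_)
    rw [Finset.mul_sum, Finset.mul_sum, ← Finset.sum_sub_distrib]
    refine Finset.sum_congr rfl (fun j _ => ?_)
    rw [htau]
    ring
  rw [hmain]
  have hcs : ‖∑ v, C v‖ ^ 2 ≤ (2 : ℝ) ^ r * ∑ v, ‖C v‖ ^ 2 := by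
    calc ‖∑ v, C v‖ ^ 2 ≤ (∑ v, ‖C v‖) ^ 2 := by
          gcongr
          exact norm_sum_le _ _
      _ ≤ (Finset.univ : Finset (Fin r → ZMod 2)).card * ∑ v, ‖C v‖ ^ 2 :=
          sq_sum_le_card_mul_sum_sq
      _ = _ := by
          congr 1
          rw [Finset.card_univ, Fintype.card_fun, ZMod.card, Fintype.card_fin]
          push_cast
          rfl
  have h2 : 1 + ε = ε * (2 : ℝ) ^ r := by
    rw [hε]; field_simp; ring
  have h3 : 0 ≤ (1 + ε) * ∑ v, ‖C v‖ ^ 2 - ε * ‖∑ v, C v‖ ^ 2 := by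
    rw [h2]
    have := mul_le_mul_of_nonneg_left hcs hε0.le
    linarith
  exact_mod_cast h3

theorem tau_mem (hr : 0 < r) : tau r ∈ InvP r := by
  refine ⟨tau_pd hr, by simp [tau, cl_one], fun α g => ?_⟩
  unfold tau
  simp only [cl_aut_eq_zero]

/-- the value at a generator determines an invariant function which is one on the kernel; it is
bounded below -/
theorem value_bound (hr : 0 < r) (φ : FreeGroup (Fin r) → ℂ) (hφ : φ ∈ InvP r)
    (hker : ∀ g, cl g = 0 → φ g = 1) (i₀ : Fin r) :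
    (∀ g, cl g ≠ 0 → φ g = φ (FreeGroup.of i₀)) ∧ (φ (FreeGroup.of i₀)).im = 0 ∧
      -(1 / ((2 : ℝ) ^ r - 1)) ≤ (φ (FreeGroup.of i₀)).re := by
  obtain ⟨hpd, h1, hinv⟩ := hφ
  have hcl : ∀ g h, cl g = cl h → φ g = φ h := by
    intro g h hgh
    have : φ (g * (g⁻¹ * h)) = φ g := pd_mul hpd h1 g _ (hker _ (by
      rw [cl_mul, cl_inv, hgh, neg_add_cancel]))
    rw [← this]
    congr 1
    group
  have hconst : ∀ g, cl g ≠ 0 → φ g = φ (FreeGroup.of i₀) := by
    intro g hg
    obtain ⟨α, hα⟩ := exists_aut g hg i₀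
    rw [← hcl _ _ hα, hinv]
  refine ⟨hconst, ?_⟩
  choose s hs using exists_lift (r := r)
  have hsum := pd_sum hpd s
  set z := φ (FreeGroup.of i₀) with hz
  have hval : ∀ v w, φ ((s w)⁻¹ * s v) = if v = w then 1 else z := by
    intro v w
    have e : cl ((s w)⁻¹ * s v) = -w + v := by rw [cl_mul, cl_inv, hs, hs]
    by_cases h : v = w
    · rw [if_pos h]
      exact hker _ (by rw [e, h, neg_add_cancel])
    · rw [if_neg h]
      exact hconst _ (by
        rw [e]
        intro h'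
        exact h (by rw [neg_add_eq_zero] at h'; exact h'.symm))
  have hcard : (Finset.univ : Finset (Fin r → ZMod 2)).card = 2 ^ r := by
    rw [Finset.card_univ, Fintype.card_fun, ZMod.card, Fintype.card_fin]
  have htot : ∑ v, ∑ w, φ ((s w)⁻¹ * s v) = (2 : ℂ) ^ r * (1 + ((2 : ℂ) ^ r - 1) * z) := by
    have : ∀ v : Fin r → ZMod 2, ∑ w, φ ((s w)⁻¹ * s v) = 1 + ((2 : ℂ) ^ r - 1) * z := by
      intro v
      simp only [hval]
      rw [← Finset.add_sum_erase _ _ (Finset.mem_univ v), if_pos rfl]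
      congr 1
      rw [Finset.sum_congr rfl (g := fun _ => z)]
      · rw [Finset.sum_const, Finset.card_erase_of_mem (Finset.mem_univ _), hcard, nsmul_eq_mul,
          Nat.cast_sub Nat.one_le_two_pow]
        push_cast
        ring
      · intro w hw
        rw [if_neg (Finset.ne_of_mem_erase hw).symm]
    simp only [this]
    rw [Finset.sum_const, hcard, nsmul_eq_mul]
    push_cast
    ring
  rw [htot] at hsum
  obtain ⟨hre, him⟩ := Complex.nonneg_iff.mp hsum
  have hr' := two_pow_sub hr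
  have h2r : (0 : ℝ) < 2 ^ r := by positivity
  have hcast : (2 : ℂ) ^ r * (1 + ((2 : ℂ) ^ r - 1) * z)
      = (((2 : ℝ) ^ r : ℝ) : ℂ) * (1 + (((2 : ℝ) ^ r - 1 : ℝ) : ℂ) * z) := by push_cast; ring
  rw [hcast] at hre him
  rw [Complex.re_ofReal_mul, Complex.add_re, Complex.re_ofReal_mul, Complex.one_re] at hre
  rw [Complex.im_ofReal_mul, Complex.add_im, Complex.im_ofReal_mul, Complex.one_im, zero_add] at him
  constructor
  · rcases mul_eq_zero.mp him.symm with h | h
    · exact absurd h h2r.ne'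
    · rcases mul_eq_zero.mp h with h | h
      · exact absurd h hr'.ne'
      · exact h
  · have h3 : 0 ≤ 1 + ((2 : ℝ) ^ r - 1) * z.re := by
      by_contra hneg
      push Not at hneg
      nlinarith
    rw [neg_le_iff_add_nonneg, ← sub_nonneg]
    have h4 : z.re + 1 / ((2 : ℝ) ^ r - 1) - 0
        = (1 + ((2 : ℝ) ^ r - 1) * z.re) / ((2 : ℝ) ^ r - 1) := by
      field_simp
      ring
    rw [h4]
    exact div_nonneg h3 hr'.le

theorem convex_eq {a b x y m : ℝ} (ha : 0 < a) (hb : 0 < b) (hab : a + b = 1) (hx : m ≤ x)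
    (hy : m ≤ y) (h : a * x + b * y = m) : x = m ∧ y = m := by
  have h1 : a * (x - m) + b * (y - m) = 0 := by linear_combination h - m * hab
  have h2 : 0 ≤ a * (x - m) := mul_nonneg ha.le (by linarith)
  have h3 : 0 ≤ b * (y - m) := mul_nonneg hb.le (by linarith)
  have h4 : a * (x - m) = 0 := by linarith
  have h5 : b * (y - m) = 0 := by linarith
  have h6 := (mul_eq_zero.mp h4).resolve_left ha.ne'
  have h7 := (mul_eq_zero.mp h5).resolve_left hb.ne'
  exact ⟨by linarith, by linarith⟩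

theorem tau_extreme (hr : 0 < r) : tau r ∈ Set.extremePoints ℝ (InvP r) := by
  rw [mem_extremePoints]
  refine ⟨tau_mem hr, ?_⟩
  intro φ hφ ψ hψ hseg
  obtain ⟨a, b, ha, hb, hab, hsum⟩ := hseg
  have hpt : ∀ g, (a : ℂ) * φ g + (b : ℂ) * ψ g = tau r g := by
    intro g
    rw [← hsum]
    simp
  have hker : (∀ g, cl g = 0 → φ g = 1) ∧ (∀ g, cl g = 0 → ψ g = 1) := by
    have key : ∀ g, cl g = 0 → φ g = 1 ∧ ψ g = 1 := by
      intro g hg
      have h := hpt g
      have ht : tau r g = 1 := by simp [tau, hg]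
      rw [ht] at h
      have n1 := pd_norm_le hφ.1 hφ.2.1 g
      have n2 := pd_norm_le hψ.1 hψ.2.1 g
      have r1 := (Complex.re_le_norm (φ g)).trans n1
      have r2 := (Complex.re_le_norm (ψ g)).trans n2
      have hre := congrArg Complex.re h
      rw [Complex.add_re, Complex.re_ofReal_mul, Complex.re_ofReal_mul, Complex.one_re] at hre
      have q1 : (φ g).re = 1 := by nlinarith
      have q2 : (ψ g).re = 1 := by nlinarith
      have one_of : ∀ z : ℂ, ‖z‖ ≤ 1 → z.re = 1 → z = 1 := by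
        intro z hz hzr
        have h3 : z.re ^ 2 + z.im ^ 2 ≤ 1 := by
          have h5 : ‖z‖ ^ 2 = z.re ^ 2 + z.im ^ 2 := by
            rw [← Complex.normSq_eq_norm_sq, Complex.normSq_apply]; ring
          nlinarith [norm_nonneg z]
        have h4 : z.im = 0 := by
          rw [hzr] at h3
          nlinarith [sq_nonneg z.im]
        apply Complex.ext
        · simpa using hzr
        · simpa using h4
      exact ⟨one_of _ n1 q1, one_of _ n2 q2⟩
    exact ⟨fun g hg => (key g hg).1, fun g hg => (key g hg).2⟩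
  let i₀ : Fin r := ⟨0, hr⟩
  obtain ⟨c1, im1, b1⟩ := value_bound hr φ hφ hker.1 i₀
  obtain ⟨c2, im2, b2⟩ := value_bound hr ψ hψ hker.2 i₀
  have hr' := two_pow_sub hr
  have hof : cl (FreeGroup.of i₀ : FreeGroup (Fin r)) ≠ 0 := by
    rw [cl_of]
    intro h
    have := congrFun h i₀
    simp at this
  have htau0 : tau r (FreeGroup.of i₀) = ((-(1 / ((2 : ℝ) ^ r - 1)) : ℝ) : ℂ) := by
    unfold tau
    rw [if_neg hof]
    push_cast
    ring
  have h0 := hpt (FreeGroup.of i₀)
  rw [htau0] at h0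
  have hre := congrArg Complex.re h0
  rw [Complex.add_re, Complex.re_ofReal_mul, Complex.re_ofReal_mul, Complex.ofReal_re] at hre
  set δ : ℝ := 1 / ((2 : ℝ) ^ r - 1) with hδ
  have hq := convex_eq ha hb hab b1 b2 hre
  have q1 : (φ (FreeGroup.of i₀)).re = -δ := hq.1
  have q2 : (ψ (FreeGroup.of i₀)).re = -δ := hq.2
  have v1 : φ (FreeGroup.of i₀) = tau r (FreeGroup.of i₀) := by
    rw [htau0]
    apply Complex.ext
    · rw [q1, Complex.ofReal_re]
    · rw [im1, Complex.ofReal_im]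
  have v2 : ψ (FreeGroup.of i₀) = tau r (FreeGroup.of i₀) := by
    rw [htau0]
    apply Complex.ext
    · rw [q2, Complex.ofReal_re]
    · rw [im2, Complex.ofReal_im]
  have fin : ∀ (χ : FreeGroup (Fin r) → ℂ), (∀ g, cl g = 0 → χ g = 1) →
      (∀ g, cl g ≠ 0 → χ g = χ (FreeGroup.of i₀)) →
      χ (FreeGroup.of i₀) = tau r (FreeGroup.of i₀) → χ = tau r := by
    intro χ k1 k2 k3
    funext g
    by_cases hg : cl g = 0
    · rw [k1 g hg]
      simp [tau, hg]
    · rw [k2 g hg, k3]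
      unfold tau
      rw [if_neg hof, if_neg hg]
  exact ⟨fin φ hker.1 c1 v1, fin ψ hker.2 c2 v2⟩

end quot

/-- **A nontrivial automorphism-invariant extreme point not vanishing at a generator exists**, for
every rank `r ≥ 2`. -/
theorem result (r : ℕ) (hr : 2 ≤ r) :
    ∃ τ : FreeGroup (Fin r) → ℂ, τ ∈ Set.extremePoints ℝ (InvP r) ∧ τ ≠ (fun _ => 1) ∧
      τ (FreeGroup.of ⟨0, by omega⟩) ≠ 0 := by
  have hr0 : 0 < r := by omega
  have hr' := two_pow_sub hr0
  have hof : cl (FreeGroup.of (⟨0, by omega⟩ : Fin r) : FreeGroup (Fin r)) ≠ 0 := by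
    rw [cl_of]
    intro h
    have := congrFun h ⟨0, by omega⟩
    simp at this
  have htau0 : tau r (FreeGroup.of ⟨0, by omega⟩) = ((-(1 / ((2 : ℝ) ^ r - 1)) : ℝ) : ℂ) := by
    unfold tau
    rw [if_neg hof]
    push_cast
    ring
  have hneg : -(1 / ((2 : ℝ) ^ r - 1)) < 0 := by
    have : 0 < 1 / ((2 : ℝ) ^ r - 1) := by positivity
    linarith
  refine ⟨tau r, tau_extreme hr0, ?_, ?_⟩
  · intro h
    have h2 := congrFun h (FreeGroup.of ⟨0, by omega⟩)
    rw [htau0] at h2
    have h3 : -(1 / ((2 : ℝ) ^ r - 1)) = 1 := by exact_mod_cast h2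
    linarith
  · rw [htau0]
    exact_mod_cast hneg.ne

end Pool.Agent.Results.MP_4640da_an.NonvanishingExtreme
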